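import Pool.Agent.Helper44.GH.Stmts
import Pool.Agent.Helper47.GN.PJP

/-!
# Module DQ (MP_d210aa_gt)

Derivatives of the Gram determinant and of the trace.
-/

set_option autoImplicit false

open Finset MeasureTheory Filter Topology Matrix
open scoped ENNReal ContDiff

namespace Pool.Agent.Helper44.GH

open Pool.Agent.Helper44.GF Pool.Agent.Helper44.GN

variable {m : ℕ}

theorem dq_det1 (M N : Matrix (Fin m) (Fin m) ℝ) :
    HasDerivAt (fun t : ℝ => (1 + t • M + t ^ 2 • N).det) (Matrix.trace M) 0 := by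
  have hent : ∀ i j, HasDerivAt (fun t : ℝ => (1 + t • M + t ^ 2 • N) i j) (M i j) 0 := by
    intro i j
    have h1 : HasDerivAt (fun t : ℝ => (1 : Matrix (Fin m) (Fin m) ℝ) i j + t * M i j
        + t ^ 2 * N i j) (0 + 1 * M i j + ((2 : ℕ) * (0 : ℝ) ^ (2 - 1) * 1) * N i j) 0 :=
      ((hasDerivAt_const _ _).add ((hasDerivAt_id (0 : ℝ)).mul_const _)).add
        (((hasDerivAt_id (0 : ℝ)).pow 2).mul_const _)
    have h2 : (0 + 1 * M i j + ((2 : ℕ) * (0 : ℝ) ^ (2 - 1) * 1) * N i j) = M i j := by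
      simp
    rw [h2] at h1
    exact h1
  have hd : ∀ σ : Equiv.Perm (Fin m), HasDerivAt
      (fun t : ℝ => ∏ i, (1 + t • M + t ^ 2 • N) (σ i) i)
      (∑ i, (∏ j ∈ univ.erase i, (1 + (0 : ℝ) • M + (0 : ℝ) ^ 2 • N) (σ j) j) • M (σ i) i) 0 :=
    fun σ => HasDerivAt.fun_finsetProd fun i _ => hent (σ i) i
  have hz : (1 + (0 : ℝ) • M + (0 : ℝ) ^ 2 • N) = 1 := by simp
  have hsum := HasDerivAt.fun_sum (u := (univ : Finset (Equiv.Perm (Fin m))))
    fun σ _ => (hd σ).const_mul (((Equiv.Perm.sign σ : ℤ) : ℝ))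
  simp only [Matrix.det_apply']
  have hval : (∑ σ : Equiv.Perm (Fin m), ((Equiv.Perm.sign σ : ℤ) : ℝ) *
      ∑ i, (∏ j ∈ univ.erase i, (1 + (0 : ℝ) • M + (0 : ℝ) ^ 2 • N) (σ j) j) • M (σ i) i)
      = Matrix.trace M := by
    rw [hz, Finset.sum_eq_single (1 : Equiv.Perm (Fin m))]
    · have h1 : ∀ i : Fin m, ∏ j ∈ univ.erase i, (1 : Matrix (Fin m) (Fin m) ℝ)
          ((1 : Equiv.Perm (Fin m)) j) j = 1 := fun i =>
        Finset.prod_eq_one fun j _ => Matrix.one_apply_eq j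
      simp only [h1]
      simp [Matrix.trace]
    · intro σ _ hσ
      have h0 : ∀ i, ∏ j ∈ univ.erase i, (1 : Matrix (Fin m) (Fin m) ℝ) (σ j) j = 0 := by
        intro i
        obtain ⟨j, hj⟩ : ∃ j, σ j ≠ j := by
          by_contra hcon
          push Not at hcon
          exact hσ (Equiv.ext hcon)
        by_cases hji : j = i
        · have hk : σ (σ j) ≠ σ j := fun h => hj (σ.injective h)
          exact Finset.prod_eq_zero (i := σ j) (by
            rw [Finset.mem_erase]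
            exact ⟨fun h => hj (by rw [h, hji]), Finset.mem_univ _⟩)
            (Matrix.one_apply_ne hk)
        · exact Finset.prod_eq_zero (i := j) (by
            rw [Finset.mem_erase]
            exact ⟨hji, Finset.mem_univ _⟩) (Matrix.one_apply_ne hj)
      simp [h0]
    · intro h
      exact absurd (Finset.mem_univ _) h
  rw [hval] at hsum
  exact hsum

theorem dq_det (H M N : Matrix (Fin m) (Fin m) ℝ) (hu : IsUnit H.det) :
    HasDerivAt (fun t : ℝ => (H + t • M + t ^ 2 • N).det) (H.det * Matrix.trace (H⁻¹ * M)) 0 := by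
  have h1 := (dq_det1 (H⁻¹ * M) (H⁻¹ * N)).const_mul H.det
  have h2 : (fun t : ℝ => H.det * (1 + t • (H⁻¹ * M) + t ^ 2 • (H⁻¹ * N)).det)
      = fun t : ℝ => (H + t • M + t ^ 2 • N).det := by
    funext t
    rw [← Matrix.det_mul]
    congr 1
    rw [Matrix.mul_add, Matrix.mul_add, Matrix.mul_one, Matrix.mul_smul, Matrix.mul_smul,
      Matrix.mul_nonsing_inv_cancel_left _ _ hu, Matrix.mul_nonsing_inv_cancel_left _ _ hu]
  rw [h2] at h1
  exact h1

section Norm

attribute [local instance] Matrix.linftyOpNormedRing Matrix.linftyOpNormedAlgebra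

theorem dq_inv (H M N K L : Matrix (Fin m) (Fin m) ℝ) (hu : IsUnit H.det) :
    HasDerivAt (fun t : ℝ => Matrix.trace ((H + t • M + t ^ 2 • N)⁻¹ * (K + t • L)))
      (Matrix.trace (-(H⁻¹ * M * H⁻¹) * K + H⁻¹ * L)) 0 := by
  have hA : HasDerivAt (fun t : ℝ => H + t • M + t ^ 2 • N) M 0 := by
    have h1 : HasDerivAt (fun t : ℝ => H + t • M + t ^ 2 • N)
        (0 + (1 : ℝ) • M + (((2 : ℕ) * (0 : ℝ) ^ (2 - 1) * 1) • N)) 0 :=
      ((hasDerivAt_const _ _).add ((hasDerivAt_id (0 : ℝ)).smul_const _)).add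
        (((hasDerivAt_id (0 : ℝ)).pow 2).smul_const _)
    have h2 : (0 + (1 : ℝ) • M + (((2 : ℕ) * (0 : ℝ) ^ (2 - 1) * 1) • N)) = M := by
      simp
    rw [h2] at h1
    exact h1
  have hW : HasDerivAt (fun t : ℝ => K + t • L) L 0 := by
    have h1 : HasDerivAt (fun t : ℝ => K + t • L) (0 + (1 : ℝ) • L) 0 :=
      (hasDerivAt_const _ _).add ((hasDerivAt_id (0 : ℝ)).smul_const _)
    have h2 : (0 + (1 : ℝ) • L) = L := by simp
    rw [h2] at h1
    exact h1
  have hU : IsUnit H := (Matrix.isUnit_iff_isUnit_det _).2 hu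
  obtain ⟨u, hu2⟩ := hU
  have hz : H + (0 : ℝ) • M + (0 : ℝ) ^ 2 • N = H := by simp
  have hinv : HasDerivAt (fun t : ℝ => Ring.inverse (H + t • M + t ^ 2 • N))
      (-(H⁻¹ * M * H⁻¹)) 0 := by
    have h1 := hasFDerivAt_ringInverse (𝕜 := ℝ) u
    have h2 : (u : Matrix (Fin m) (Fin m) ℝ) = H + (0 : ℝ) • M + (0 : ℝ) ^ 2 • N := by
      rw [hz, hu2]
    rw [h2] at h1
    have h3 := h1.comp_hasDerivAt (0 : ℝ) hA
    have h4 : ((↑u⁻¹ : Matrix (Fin m) (Fin m) ℝ)) = H⁻¹ := by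
      rw [Matrix.coe_units_inv, hu2]
    simp only [_root_.neg_apply, ContinuousLinearMap.mulLeftRight_apply, h4] at h3
    exact h3
  have hmul := hinv.mul hW
  have hval : (-(H⁻¹ * M * H⁻¹)) * (K + (0 : ℝ) • L)
      + Ring.inverse (H + (0 : ℝ) • M + (0 : ℝ) ^ 2 • N) * L
      = -(H⁻¹ * M * H⁻¹) * K + H⁻¹ * L := by
    rw [hz, zero_smul, add_zero, ← Matrix.nonsing_inv_eq_ringInverse]
  rw [hval] at hmul
  have htr := (LinearMap.toContinuousLinearMap
    (Matrix.traceLinearMap (Fin m) ℝ ℝ)).hasFDerivAt.comp_hasDerivAt (0 : ℝ) hmul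
  have hfun : (fun t : ℝ => Matrix.trace ((H + t • M + t ^ 2 • N)⁻¹ * (K + t • L)))
      = (LinearMap.toContinuousLinearMap (Matrix.traceLinearMap (Fin m) ℝ ℝ)) ∘
        ((fun t : ℝ => Ring.inverse (H + t • M + t ^ 2 • N)) * fun t : ℝ => K + t • L) := by
    funext t
    simp only [Matrix.nonsing_inv_eq_ringInverse]
    rfl
  rw [hfun]
  exact htr

end Norm

theorem dq_TTt {n : ℕ} (V Z : Matrix (Fin n) (Fin m) ℝ) (y : Fin n → ℝ) (t : ℝ) :
    TT (V + t • Z) (V + t • Z) y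
      = TT V V y + t • (TT V Z y + TT Z V y) + t ^ 2 • TT Z Z y := by
  unfold TT
  simp only [Matrix.transpose_add, Matrix.transpose_smul, Matrix.add_mul, Matrix.mul_add,
    Matrix.smul_mul, Matrix.mul_smul, smul_add, smul_smul]
  rw [pow_two]
  abel

theorem dq_TTt2 {n : ℕ} (V Z : Matrix (Fin n) (Fin m) ℝ) (y : Fin n → ℝ) (t : ℝ) :
    TT (V + t • Z) Z y = TT V Z y + t • TT Z Z y := by
  unfold TT
  simp only [Matrix.transpose_add, Matrix.transpose_smul, Matrix.add_mul, Matrix.smul_mul]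

theorem dq_TTtr {n : ℕ} (V Z : Matrix (Fin n) (Fin m) ℝ) (y : Fin n → ℝ) :
    TT Z V y = (TT V Z y)ᵀ := by
  unfold TT
  rw [Matrix.transpose_mul, Matrix.transpose_mul, Matrix.transpose_transpose,
    Matrix.diagonal_transpose, Matrix.mul_assoc]

theorem st_DQ : ST_DQ := by
  intro n m V Z hV y hy
  have hq : 0 < qf V y := (Pool.Agent.Helper44.GN.st_PJP n m V hV y hy).1
  have hu : IsUnit (TT V V y).det := hq.ne'.isUnit
  have hHB : TT V Z y = TT V V y * BB V Z y := by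
    unfold BB
    rw [Matrix.mul_nonsing_inv_cancel_left _ _ hu]
  have hsy : (TT V V y)ᵀ = TT V V y := Pool.Agent.Helper44.GN.pjp_symm V y
  have hBH : TT Z V y = (BB V Z y)ᵀ * TT V V y := by
    rw [dq_TTtr, hHB, Matrix.transpose_mul, hsy]
  have htr1 : Matrix.trace ((TT V V y)⁻¹ * (TT V Z y + TT Z V y))
      = 2 * Matrix.trace (BB V Z y) := by
    rw [Matrix.mul_add, Matrix.trace_add, hBH, Matrix.trace_mul_comm _ ((BB V Z y)ᵀ * TT V V y),
      Matrix.mul_nonsing_inv_cancel_right _ _ hu, Matrix.trace_transpose]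
    change Matrix.trace (BB V Z y) + Matrix.trace (BB V Z y) = _
    ring
  constructor
  · have h1 := dq_det (TT V V y) (TT V Z y + TT Z V y) (TT Z Z y) hu
    rw [htr1] at h1
    have h2 : (fun t : ℝ => qf (V + t • Z) y)
        = fun t : ℝ => (TT V V y + t • (TT V Z y + TT Z V y) + t ^ 2 • TT Z Z y).det := by
      funext t
      unfold qf
      rw [dq_TTt]
    rw [h2]
    have h3 : 2 * qf V y * Matrix.trace (BB V Z y)
        = (TT V V y).det * (2 * Matrix.trace (BB V Z y)) := by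
      unfold qf
      ring
    rw [h3]
    exact h1
  · have h1 := dq_inv (TT V V y) (TT V Z y + TT Z V y) (TT Z Z y) (TT V Z y) (TT Z Z y) hu
    have h2 : (fun t : ℝ => Matrix.trace (BB (V + t • Z) Z y))
        = fun t : ℝ => Matrix.trace ((TT V V y + t • (TT V Z y + TT Z V y)
          + t ^ 2 • TT Z Z y)⁻¹ * (TT V Z y + t • TT Z Z y)) := by
      funext t
      unfold BB
      rw [dq_TTt, dq_TTt2]
    rw [h2]
    have h3 : sgm V Z y - Matrix.trace (BB V Z y * BB V Z y)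
        = Matrix.trace (-((TT V V y)⁻¹ * (TT V Z y + TT Z V y) * (TT V V y)⁻¹) * TT V Z y
          + (TT V V y)⁻¹ * TT Z Z y) := by
      have e1 : -((TT V V y)⁻¹ * (TT V Z y + TT Z V y) * (TT V V y)⁻¹) * TT V Z y
          = -(BB V Z y * BB V Z y) - (TT V V y)⁻¹ * ((BB V Z y)ᵀ * TT V V y * BB V Z y) := by
        have e2 : (TT V V y)⁻¹ * TT V Z y = BB V Z y := rfl
        rw [Matrix.neg_mul, Matrix.mul_assoc ((TT V V y)⁻¹ * (TT V Z y + TT Z V y)), e2,
          Matrix.mul_add, e2, Matrix.add_mul, hBH, neg_add, sub_eq_add_neg]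
        congr 2
        simp only [Matrix.mul_assoc]
      rw [e1]
      unfold sgm
      rw [Matrix.mul_sub, Matrix.trace_sub, Matrix.trace_add, Matrix.trace_sub, Matrix.trace_neg]
      ring
    rw [h3]
    exact h1

end Pool.Agent.Helper44.GH
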